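import Pool.Agent.Helper98.MT.NewtonIff

/-
Reserve of MP_b8862a_ag (fifth hand-in, kept outside Results). Claim text:

Proves: For K algebraically closed of characteristic 0 and N natural, N <= 3 iff every symplectic Mumford-Tate pair (G,V) of weights 0,1 over K, V an orthogonal sum of pairwise non-isomorphic irreducible W_j, is the group of all similitudes preserving the W_j as soon as for each j there are c in G and v:K->Q additive on products of nonzero elements such that the v-slopes of the eigenvalues of c on W_j split into nonempty classes A, B with at most N pairs in every matching of slopes of difference b-a (a in A, b in B).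
Definitions: IsMTPair, IsSplit, IsFull (Helper21/MT/Defs.lean): G in GL_m(K) closed, of similitudes of the form J, generated as a closed group by its cocharacters with weights 0,1; the W_j as above; G contains all similitudes preserving them. Slopes P: valuations of the roots of the characteristic polynomial. Matching: r:Q->N, r(a)+r(a-d) <= mult of a in P; sum r pairs.
Relation: Partial. Not formalised: G=(G_l)^0 over the closure of Q_l (Faltings, Pink), c a Frobenius power, v above p give Q1 for h(X), X/k abelian with End=Z. New for g even: slopes s^(g-1),(1/2)^2,(1-s)^(g-1), 0<=s<1/2; or 0,s^(g-1),(1-s)^(g-1),1, 0<s<1/2, s<>1/3 (false for s=1/3, g=4: Mumford). Known: K3 type (Zarhin), toric rank 1 (Hall), g odd (Serre), Pink's dimensions.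
-/

/-!
MP_b8862a_ag (Mumford–Tate part): one element per irreducible summand whose Newton polygon has a
cut of matching number at most three forces a symplectic Mumford–Tate pair of weights zero and one
to be as large as possible, and three is optimal.

The definitions of `ZariskiClosed`, `IsCochar`, `IsMTPair`, `IsSplit`, `IsFull` are in
`Pool/Agent/Helper21/MT/Defs.lean`.
-/

open Module MTPairs

namespace Pool.Agent.Results.MP_b8862a_ag.NewtonCriterion

/-- The slopes of an operator: the multiset of the valuations of its eigenvalues (the roots of
the characteristic polynomial, with multiplicity). -/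
noncomputable def slopes {K : Type*} [Field K] {E : Type*} [AddCommGroup E] [Module K E]
    [Module.Finite K E] (v : K → ℚ) (φ : Module.End K E) : Multiset ℚ :=
  φ.charpoly.roots.map v

/-- `r` is a matching of the multiset of slopes `P` with difference `d`: `r a` members `a` of `P`
are matched with `r a` members `a + d`, and every member is used at most once. -/
def IsMatching (P : Multiset ℚ) (d : ℚ) (r : ℚ → ℕ) : Prop := ∀ a, r a + r (a - d) ≤ P.count a

/-- The multiset `P` of slopes can be split into two nonempty parts (the slopes in `A` and the
slopes outside `A`) such that for `a` in the first part and `b` in the second part every matching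
of `P` with difference `b - a` has at most `N` pairs. -/
def HasCut (N : ℕ) (P : Multiset ℚ) : Prop :=
  ∃ A : Set ℚ, (∃ a ∈ P, a ∈ A) ∧ (∃ b ∈ P, b ∉ A) ∧
    ∀ a ∈ P, ∀ b ∈ P, a ∈ A → b ∉ A → ∀ r, IsMatching P (b - a) r → ∑ᶠ c, r c ≤ N

/-- For a natural number `N` the following are equivalent: every symplectic Mumford-Tate pair of
weights `0` and `1` whose standard representation is an orthogonal sum of pairwise non isomorphic
irreducible summands, for each of which some element `γ` of the group and some additive valuation
`v` give a multiset of slopes of `γ` on the summand with a cut of matching number at most `N`, is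
the full group of similitudes preserving the summands; `N ≤ 3`. -/
theorem result (K : Type*) [Field K] [IsAlgClosed K] [CharZero K] (N : ℕ) :
    (∀ (m ι : Type) [Fintype m] [DecidableEq m] [Fintype ι] [DecidableEq ι]
      (J : Matrix m m K) (G : Subgroup (Matrix.GeneralLinearGroup m K))
      (W : ι → Submodule K (m → K)), IsMTPair J G → IsSplit J G W →
      (∀ j, ∃ γ ∈ G, ∃ v : K → ℚ, (∀ x y, x ≠ 0 → y ≠ 0 → v (x * y) = v x + v y) ∧
        ∃ φ : Module.End K (W j),
          (∀ w : W j, (φ w : m → K) = (γ : Matrix m m K).mulVec (w : m → K)) ∧
          HasCut N (slopes v φ)) →
      IsFull J G W) ↔ N ≤ 3 :=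
  MTP.newton_split_iff K N

end Pool.Agent.Results.MP_b8862a_ag.NewtonCriterion
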